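import Pool.Agent.Helper86.QA.St4

/-! QA MODULE FUC (project QD part A, MP_d112a4_gt): Fuchsian groups. -/

set_option autoImplicit false

open MeasureTheory Matrix Set Topology Filter
open scoped ENNReal ComplexConjugate ComplexOrder

namespace Pool.Agent.Helper36.QA

open Pool.Agent.Helper86.QA Pool.Agent.Helper20
open Pool.Agent.Helper35.PM (hs IsDiscrete limitSet density)
open Pool.Agent.Helper20.QD (Fuch Qp Qinf sph act orb fr IsSU mob)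

private theorem idI (a b z : ℂ) : ‖conj b * z + conj a‖ ^ 2 - ‖a * z + b‖ ^ 2 =
    (1 - ‖z‖ ^ 2) * (‖a‖ ^ 2 - ‖b‖ ^ 2) := by
  simp only [Complex.sq_norm, Complex.normSq_apply, Complex.add_re, Complex.add_im,
    Complex.mul_re, Complex.mul_im, Complex.conj_re, Complex.conj_im]
  ring

private theorem core (a b ζ z : ℂ) (r r0 : ℝ) (hab : ‖a‖ ^ 2 - ‖b‖ ^ 2 = 1) (hζ : ‖ζ‖ = 1)
    (hr0 : 0 ≤ r) (hr1 : r < 1) (h00 : 0 ≤ r0) (h01 : r0 < 1) (hz : z = (r : ℂ) * ζ)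
    (h : ‖a * z + b‖ ≤ r0 * ‖conj b * z + conj a‖) :
    1 - r0 ^ 2 ≤ 2 * (‖a‖ ^ 2 + ‖b‖ ^ 2) * (1 - r ^ 2) ∧
    ‖conj b * ζ + conj a‖ ^ 2 * (2 * (‖a‖ ^ 2 + ‖b‖ ^ 2)) ≤
      (2 / (1 - r0) + 2 / (1 - r0) ^ 2) ^ 2 := by
  have hzn : ‖z‖ = r := by
    rw [hz, norm_mul, hζ, mul_one, Complex.norm_real, Real.norm_eq_abs, abs_of_nonneg hr0]
  have hI := idI a b z
  rw [hab, mul_one, hzn] at hI
  have ha0 : 0 ≤ ‖a‖ := norm_nonneg _
  have hb0 : 0 ≤ ‖b‖ := norm_nonneg _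
  have hd0 : 0 ≤ ‖conj b * z + conj a‖ := norm_nonneg _
  have hba : ‖b‖ ≤ ‖a‖ := by
    apply le_of_sq_le_sq _ ha0
    linarith
  have hJ : ‖a‖ * ‖conj b * z + conj a‖ * (1 - r0) ≤ 1 := by
    have e1 : a * (conj b * z + conj a) = 1 + conj b * (a * z + b) := by
      have e2 : a * conj a = ((‖a‖ ^ 2 : ℝ) : ℂ) := by
        rw [Complex.mul_conj, Complex.normSq_eq_norm_sq]
      have e3 : conj b * b = ((‖b‖ ^ 2 : ℝ) : ℂ) := by
        rw [mul_comm, Complex.mul_conj, Complex.normSq_eq_norm_sq]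
      have e4 : ((‖a‖ ^ 2 : ℝ) : ℂ) - ((‖b‖ ^ 2 : ℝ) : ℂ) = 1 := by
        rw [← Complex.ofReal_sub, hab, Complex.ofReal_one]
      linear_combination e2 - e3 + e4
    have e5 : ‖a‖ * ‖conj b * z + conj a‖ ≤ 1 + ‖b‖ * ‖a * z + b‖ := by
      rw [← norm_mul, e1]
      refine (norm_add_le _ _).trans ?_
      rw [norm_one, norm_mul, RCLike.norm_conj]
    have e6 : ‖b‖ * ‖a * z + b‖ ≤ ‖a‖ * (r0 * ‖conj b * z + conj a‖) :=
      mul_le_mul hba h (norm_nonneg _) ha0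
    linarith
  have hlow : ‖a‖ - ‖b‖ ≤ ‖conj b * z + conj a‖ := by
    have e1 : conj a = (conj b * z + conj a) - conj b * z := by ring
    have e2 : ‖a‖ ≤ ‖conj b * z + conj a‖ + ‖b‖ * r := by
      rw [← RCLike.norm_conj a]
      conv_lhs => rw [e1]
      refine (norm_sub_le _ _).trans ?_
      rw [norm_mul, RCLike.norm_conj, hzn]
    have e3 : ‖b‖ * r ≤ ‖b‖ := mul_le_of_le_one_right hb0 hr1.le
    linarith
  set d := ‖conj b * z + conj a‖ with hd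
  set α := ‖a‖ with hα
  set β := ‖b‖ with hβ
  have hsq : ‖a * z + b‖ ^ 2 ≤ r0 ^ 2 * d ^ 2 := by
    rw [← mul_pow]
    exact pow_le_pow_left₀ (norm_nonneg _) h 2
  have hi : d ^ 2 * (1 - r0 ^ 2) ≤ 1 - r ^ 2 := by linarith
  have hiv : 1 - r ^ 2 ≤ d ^ 2 := by
    have := sq_nonneg ‖a * z + b‖
    linarith
  have h1r : 0 < 1 - r0 := by linarith
  have h1r2 : 0 ≤ 1 - r0 ^ 2 := by nlinarith
  have h1q : 0 ≤ 1 - r ^ 2 := by nlinarith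
  have hab1 : 1 ≤ (α + β) * d := by
    have e1 : (α + β) * (α - β) = 1 := by linarith
    rw [← e1]
    exact mul_le_mul_of_nonneg_left hlow (by positivity)
  constructor
  · have e1 : 1 ≤ ((α + β) * d) ^ 2 := one_le_pow₀ hab1
    calc 1 - r0 ^ 2 ≤ ((α + β) * d) ^ 2 * (1 - r0 ^ 2) := le_mul_of_one_le_left h1r2 e1
      _ = (α + β) ^ 2 * (d ^ 2 * (1 - r0 ^ 2)) := by ring
      _ ≤ (α + β) ^ 2 * (1 - r ^ 2) := mul_le_mul_of_nonneg_left hi (sq_nonneg _)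
      _ ≤ 2 * (α ^ 2 + β ^ 2) * (1 - r ^ 2) := by
        apply mul_le_mul_of_nonneg_right _ h1q
        nlinarith [sq_nonneg (α - β)]
  · have he : ‖conj b * ζ + conj a‖ ≤ d + β * (1 - r) := by
      have e1 : conj b * ζ + conj a = (conj b * z + conj a) + conj b * (ζ - z) := by ring
      have e2 : ζ - z = ((1 - r : ℝ) : ℂ) * ζ := by
        rw [hz]
        push_cast
        ring
      rw [e1]
      refine (norm_add_le _ _).trans ?_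
      rw [norm_mul, RCLike.norm_conj, e2, norm_mul, hζ, mul_one, Complex.norm_real,
        Real.norm_eq_abs, abs_of_nonneg (by linarith)]
    have e3 : α * d ≤ 1 / (1 - r0) := by
      rw [le_div_iff₀ h1r]
      exact hJ
    have e4 : α * β * (1 - r) ≤ 1 / (1 - r0) ^ 2 := by
      rw [le_div_iff₀ (by positivity)]
      have e5 : α * β * (1 - r) ≤ α ^ 2 * d ^ 2 := by
        have e6 : α * β * (1 - r) ≤ α * α * (1 - r ^ 2) := by
          have e7 : α * β ≤ α * α := mul_le_mul_of_nonneg_left hba ha0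
          have e8 : 1 - r ≤ 1 - r ^ 2 := by nlinarith
          exact mul_le_mul e7 e8 (by linarith) (by positivity)
        have e9 : α * α * (1 - r ^ 2) ≤ α * α * d ^ 2 :=
          mul_le_mul_of_nonneg_left hiv (by positivity)
        linarith
      have e10 : α ^ 2 * d ^ 2 * (1 - r0) ^ 2 ≤ 1 := by
        have e11 : (α * d * (1 - r0)) ^ 2 ≤ 1 := pow_le_one₀ (by positivity) hJ
        calc α ^ 2 * d ^ 2 * (1 - r0) ^ 2 = (α * d * (1 - r0)) ^ 2 := by ring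
          _ ≤ 1 := e11
      exact (mul_le_mul_of_nonneg_right e5 (by positivity)).trans e10
    have e12 : ‖conj b * ζ + conj a‖ ^ 2 ≤ (d + β * (1 - r)) ^ 2 :=
      pow_le_pow_left₀ (norm_nonneg _) he 2
    have e13 : 2 * (α ^ 2 + β ^ 2) ≤ 4 * α ^ 2 := by linarith
    calc ‖conj b * ζ + conj a‖ ^ 2 * (2 * (α ^ 2 + β ^ 2)) ≤
          (d + β * (1 - r)) ^ 2 * (4 * α ^ 2) :=
          mul_le_mul e12 e13 (by positivity) (sq_nonneg _)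
      _ = (2 * (α * d) + 2 * (α * β * (1 - r))) ^ 2 := by ring
      _ ≤ (2 / (1 - r0) + 2 / (1 - r0) ^ 2) ^ 2 := by
        apply pow_le_pow_left₀
        · have : 0 ≤ α * β * (1 - r) := mul_nonneg (mul_nonneg ha0 hb0) (by linarith)
          positivity
        · have e14 : 2 / (1 - r0) = 2 * (1 / (1 - r0)) := by ring
          have e15 : 2 / (1 - r0) ^ 2 = 2 * (1 / (1 - r0) ^ 2) := by ring
          rw [e14, e15]
          linarith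

private theorem det_su (A : SL) (h : IsSU A) : ‖A 0 0‖ ^ 2 - ‖A 0 1‖ ^ 2 = 1 := by
  have h1 := A.det_coe
  rw [Matrix.det_fin_two] at h1
  have h2 : A 1 1 = conj (A 0 0) := h.1
  have h3 : A 1 0 = conj (A 0 1) := h.2
  have h4 : A 0 0 * A 1 1 - A 0 1 * A 1 0 = 1 := h1
  rw [h2, h3, Complex.mul_conj, Complex.mul_conj, Complex.normSq_eq_norm_sq,
    Complex.normSq_eq_norm_sq] at h4
  exact_mod_cast h4

private theorem hs_su (A : SL) (h : IsSU A) :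
    hs (A : Mat) = 2 * (‖A 0 0‖ ^ 2 + ‖A 0 1‖ ^ 2) := by
  have h2 : A 1 1 = conj (A 0 0) := h.1
  have h3 : A 1 0 = conj (A 0 1) := h.2
  have h4 : hs (A : Mat) = ‖A 0 0‖ ^ 2 + ‖A 0 1‖ ^ 2 + (‖A 1 0‖ ^ 2 + ‖A 1 1‖ ^ 2) := by
    unfold hs
    rw [Fin.sum_univ_two, Fin.sum_univ_two, Fin.sum_univ_two]
  rw [h4, h2, h3, RCLike.norm_conj, RCLike.norm_conj]
  ring

private theorem Nn_Qp (A : SL) (z : ℂ) : Nn A (Qp z) =
    (‖A 0 0 * z + A 0 1‖ ^ 2 + ‖A 1 0 * z + A 1 1‖ ^ 2) / (1 + ‖z‖ ^ 2) := by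
  have hz : z * conj z = ((‖z‖ ^ 2 : ℝ) : ℂ) := by
    rw [Complex.mul_conj, Complex.normSq_eq_norm_sq]
  have key : ((A : Mat) * Qp z * (A : Mat)ᴴ).trace =
      (((‖A 0 0 * z + A 0 1‖ ^ 2 + ‖A 1 0 * z + A 1 1‖ ^ 2) / (1 + ‖z‖ ^ 2) : ℝ) : ℂ) := by
    have e1 : ((‖A 0 0 * z + A 0 1‖ ^ 2 : ℝ) : ℂ) =
        (A 0 0 * z + A 0 1) * conj (A 0 0 * z + A 0 1) := by
      rw [Complex.mul_conj, Complex.normSq_eq_norm_sq]
    have e2 : ((‖A 1 0 * z + A 1 1‖ ^ 2 : ℝ) : ℂ) =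
        (A 1 0 * z + A 1 1) * conj (A 1 0 * z + A 1 1) := by
      rw [Complex.mul_conj, Complex.normSq_eq_norm_sq]
    rw [Complex.ofReal_div, Complex.ofReal_add, e1, e2]
    unfold Qp
    rw [Matrix.mul_smul, Matrix.smul_mul, Matrix.trace_smul, Matrix.trace_fin_two]
    simp only [Matrix.mul_apply, Fin.sum_univ_two, Matrix.conjTranspose_apply, smul_eq_mul,
      Matrix.of_apply, Matrix.cons_val', Matrix.cons_val_zero, Matrix.cons_val_one,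
      Matrix.cons_val_fin_one, RCLike.star_def, map_add, map_mul]
    rw [← hz, div_eq_inv_mul]
    congr 1
    ring
  unfold Nn
  rw [key, Complex.ofReal_re]

private theorem diag_orb {Γ : Type} [Group Γ] (σ : Γ →* SL) (hσ : Fuch σ) (γ : Γ) :
    orb σ γ 0 0 = orb σ γ 1 1 := by
  have h2 : σ γ 1 1 = conj (σ γ 0 0) := (hσ.su γ).1
  have h3 : σ γ 1 0 = conj (σ γ 0 1) := (hσ.su γ).2
  unfold orb density
  rw [Matrix.smul_apply, Matrix.smul_apply]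
  congr 1
  rw [Matrix.mul_apply, Matrix.mul_apply, Fin.sum_univ_two, Fin.sum_univ_two]
  simp only [Matrix.conjTranspose_apply, RCLike.star_def]
  rw [h2, h3, Complex.conj_conj, Complex.conj_conj]
  ring

private theorem sub_part (hLQC : QD.StLQC) (hLLS : QD.StLLS) {Γ : Type} [Group Γ]
    (σ : Γ →* SL) (hσ : Fuch σ) : limitSet σ ⊆ Qp '' Metric.sphere 0 1 := by
  intro Q hQ
  have hsph : Q ∈ sph := (hLLS Γ σ hσ.discrete).2.1 hQ
  have hd : Q 0 0 = Q 1 1 := by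
    have hcl : IsClosed {P : Mat | P 0 0 = P 1 1} :=
      isClosed_eq (by fun_prop) (by fun_prop)
    have hcp : MapClusterPt Q cofinite (fun γ : Γ => density ((σ γ : Mat) * (σ γ : Mat)ᴴ)) := hQ
    have h1 : ClusterPt Q (𝓟 {P : Mat | P 0 0 = P 1 1}) := by
      refine ClusterPt.mono hcp ?_
      rw [le_principal_iff, mem_map]
      filter_upwards with γ
      exact diag_orb σ hσ γ
    rw [← mem_closure_iff_clusterPt, hcl.closure_eq] at h1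
    exact h1
  rcases hLQC.1 Q hsph with h | ⟨z, h⟩
  · exfalso
    rw [h] at hd
    simp [Qinf] at hd
  · refine ⟨z, ?_, h.symm⟩
    have hp : (0 : ℝ) < 1 + ‖z‖ ^ 2 := by positivity
    have hp' : (((1 + ‖z‖ ^ 2 : ℝ)) : ℂ)⁻¹ ≠ 0 := inv_ne_zero (Complex.ofReal_ne_zero.2 hp.ne')
    have e0 : Qp z 0 0 = (((1 + ‖z‖ ^ 2 : ℝ)) : ℂ)⁻¹ * ((‖z‖ ^ 2 : ℝ) : ℂ) := by
      simp [Qp, Matrix.smul_apply]
    have e1 : Qp z 1 1 = (((1 + ‖z‖ ^ 2 : ℝ)) : ℂ)⁻¹ * 1 := by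
      simp [Qp, Matrix.smul_apply]
    rw [h, e0, e1] at hd
    have h2 := mul_left_cancel₀ hp' hd
    have h3 : ‖z‖ ^ 2 = 1 := by exact_mod_cast h2
    have h4 : ‖z‖ = 1 := by
      have := norm_nonneg z
      nlinarith
    simpa using h4

private theorem conic {Γ : Type} [Group Γ] (σ : Γ →* SL) (hσ : Fuch σ) :
    ∃ C : ℝ, 0 < C ∧ ∀ ζ ∈ Metric.sphere (0 : ℂ) 1, ∀ X : ℝ, ∃ γ : Γ,
      X < hs (σ γ : Mat) ∧ Nn (σ γ) (Qp ζ) * hs (σ γ : Mat) ≤ C := by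
  obtain ⟨r0, hr1, hco⟩ := hσ.cocompact
  have hr0 : 0 ≤ r0 := by
    obtain ⟨γ, hγ⟩ := hco 0 (by simp)
    exact (norm_nonneg _).trans hγ
  have h1r : 0 < 1 - r0 := by linarith
  have h1q : 0 < 1 - r0 ^ 2 := by nlinarith
  refine ⟨(2 / (1 - r0) + 2 / (1 - r0) ^ 2) ^ 2, by positivity, ?_⟩
  intro ζ hζ' X
  have hζ : ‖ζ‖ = 1 := by simpa using hζ'
  have hX : 0 ≤ |X| := abs_nonneg X
  have hXX : X ≤ |X| := le_abs_self X
  obtain ⟨δ, hδ⟩ : ∃ δ : ℝ, δ = (1 - r0 ^ 2) / (4 * (|X| + 1)) := ⟨_, rfl⟩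
  have hδ0 : 0 < δ := by rw [hδ]; positivity
  have hδe : δ * (4 * (|X| + 1)) = 1 - r0 ^ 2 := by
    rw [hδ]
    field_simp
  have hδ1 : δ < 1 := by
    by_contra hcon
    push Not at hcon
    have : 4 * (|X| + 1) ≤ δ * (4 * (|X| + 1)) := le_mul_of_one_le_left (by positivity) hcon
    nlinarith [sq_nonneg r0]
  obtain ⟨r, hr⟩ : ∃ r : ℝ, r = 1 - δ := ⟨_, rfl⟩
  have hrr0 : 0 ≤ r := by linarith
  have hrr1 : r < 1 := by linarith
  have hzn : ‖(r : ℂ) * ζ‖ = r := by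
    rw [norm_mul, hζ, mul_one, Complex.norm_real, Real.norm_eq_abs, abs_of_nonneg hrr0]
  obtain ⟨γ, hγ⟩ := hco ((r : ℂ) * ζ) (by
    rw [mem_ball_zero_iff, hzn]
    exact hrr1)
  have hsu := hσ.su γ
  have hab := det_su (σ γ) hsu
  have h2 : σ γ 1 1 = conj (σ γ 0 0) := hsu.1
  have h3 : σ γ 1 0 = conj (σ γ 0 1) := hsu.2
  have hden : 0 < ‖conj (σ γ 0 1) * ((r : ℂ) * ζ) + conj (σ γ 0 0)‖ := by
    have hI := idI (σ γ 0 0) (σ γ 0 1) ((r : ℂ) * ζ)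
    rw [hab, mul_one, hzn] at hI
    have h4 : 0 < 1 - r ^ 2 := by nlinarith
    have h5 := sq_nonneg ‖σ γ 0 0 * ((r : ℂ) * ζ) + σ γ 0 1‖
    by_contra hcon
    have h6 : ‖conj (σ γ 0 1) * ((r : ℂ) * ζ) + conj (σ γ 0 0)‖ = 0 :=
      le_antisymm (not_lt.1 hcon) (norm_nonneg _)
    rw [h6] at hI
    nlinarith
  have hm : ‖σ γ 0 0 * ((r : ℂ) * ζ) + σ γ 0 1‖ ≤
      r0 * ‖conj (σ γ 0 1) * ((r : ℂ) * ζ) + conj (σ γ 0 0)‖ := by
    have h7 : ‖(σ γ 0 0 * ((r : ℂ) * ζ) + σ γ 0 1) /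
        (σ γ 1 0 * ((r : ℂ) * ζ) + σ γ 1 1)‖ ≤ r0 := hγ
    rw [h2, h3, norm_div, div_le_iff₀ hden] at h7
    exact h7
  obtain ⟨c1, c2⟩ := core (σ γ 0 0) (σ γ 0 1) ζ ((r : ℂ) * ζ) r r0 hab hζ hrr0 hrr1 hr0 hr1 rfl hm
  refine ⟨γ, ?_, ?_⟩
  · rw [hs_su (σ γ) hsu]
    have hH : 0 ≤ 2 * (‖σ γ 0 0‖ ^ 2 + ‖σ γ 0 1‖ ^ 2) := by positivity
    set H := 2 * (‖σ γ 0 0‖ ^ 2 + ‖σ γ 0 1‖ ^ 2) with hHd
    have h8 : 1 - r ^ 2 ≤ 2 * δ := by rw [hr]; nlinarith [sq_nonneg δ]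
    have h9 : 1 - r0 ^ 2 ≤ H * (2 * δ) := c1.trans (mul_le_mul_of_nonneg_left h8 hH)
    have h10 : δ * (4 * (|X| + 1)) ≤ δ * (2 * H) := by
      rw [hδe]
      linarith
    have h11 : 4 * (|X| + 1) ≤ 2 * H := le_of_mul_le_mul_left h10 hδ0
    linarith
  · rw [hs_su (σ γ) hsu, Nn_Qp]
    have hI := idI (σ γ 0 0) (σ γ 0 1) ζ
    rw [hζ] at hI
    have h12 : ‖σ γ 0 0 * ζ + σ γ 0 1‖ ^ 2 = ‖conj (σ γ 0 1) * ζ + conj (σ γ 0 0)‖ ^ 2 := by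
      linarith
    rw [h12, h2, h3, hζ]
    refine le_trans (le_of_eq ?_) c2
    ring

theorem hFUC (hLFR : QD.StLFR) (hLQC : QD.StLQC) (hLMX : QD.StLMX) (hLLS : QD.StLLS) :
    StFUC := by
  intro Γ _ σ hσ
  obtain ⟨C, hC, hcon⟩ := conic σ hσ
  refine ⟨Subset.antisymm (sub_part hLQC hLLS σ hσ) ?_, C, hC, hcon⟩
  rintro Q ⟨ζ, hζ, rfl⟩
  change MapClusterPt (Qp ζ) cofinite (fun γ : Γ => density ((σ γ : Mat) * (σ γ : Mat)ᴴ))
  rw [mapClusterPt_iff_frequently]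
  intro s hs'
  obtain ⟨ε, hε, hεs⟩ := (hLFR.2.2.2 (Qp ζ)).mem_iff.1 hs'
  rw [frequently_cofinite_iff_infinite]
  intro hfin
  obtain ⟨X0, hX0⟩ := (hfin.image (fun γ : Γ => hs (σ γ : Mat))).bddAbove
  obtain ⟨γ, hγ1, hγ2⟩ := hcon ζ hζ (max X0 (2 * C / ε + 1))
  have hsph : Qp ζ ∈ sph := (hLQC.2.2.1 ζ).1
  have hL := (hLMX.2.2.2.2.1 (σ γ) (Qp ζ) hsph).2.2
  have hinv : hs ((σ γ⁻¹ : SL) : Mat) = hs (σ γ : Mat) := by
    rw [map_inv]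
    exact hLMX.2.2.1 (σ γ)
  have hb : 2 * C / ε + 1 < hs (σ γ : Mat) := (le_max_right _ _).trans_lt hγ1
  have hb1 : (1 : ℝ) ≤ hs (σ γ : Mat) := by
    have : 0 ≤ 2 * C / ε := by positivity
    linarith
  have hb0 : 0 < hs (σ γ : Mat) := by linarith
  have hin : γ⁻¹ ∈ {x : Γ | density ((σ x : Mat) * (σ x : Mat)ᴴ) ∈ s} := by
    apply hεs
    change fr (density ((σ γ⁻¹ : Mat) * (σ γ⁻¹ : Mat)ᴴ)) (Qp ζ) < ε
    rw [map_inv]
    have e1 : hs (σ γ : Mat) * fr (density ((((σ γ)⁻¹ : SL) : Mat) * (((σ γ)⁻¹ : SL) : Mat)ᴴ))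
        (Qp ζ) / 2 ≤ Nn (σ γ) (Qp ζ) := hL
    clear hL
    revert e1
    generalize fr (density ((((σ γ)⁻¹ : SL) : Mat) * (((σ γ)⁻¹ : SL) : Mat)ᴴ)) (Qp ζ) = F
    intro e1
    have e2 : hs (σ γ : Mat) * F / 2 * hs (σ γ : Mat) ≤ C :=
      (mul_le_mul_of_nonneg_right e1 hb0.le).trans hγ2
    have e3 : 2 * C < hs (σ γ : Mat) * ε := by
      have : 2 * C / ε < hs (σ γ : Mat) := by linarith
      rwa [div_lt_iff₀ hε] at this
    have e4 : hs (σ γ : Mat) * ε ≤ hs (σ γ : Mat) * (hs (σ γ : Mat) * ε) := by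
      apply mul_le_mul_of_nonneg_left _ hb0.le
      exact le_mul_of_one_le_left hε.le hb1
    by_contra hcon2
    push Not at hcon2
    have e5 : hs (σ γ : Mat) * (hs (σ γ : Mat) * ε) ≤ hs (σ γ : Mat) * (hs (σ γ : Mat) * F) :=
      mul_le_mul_of_nonneg_left (mul_le_mul_of_nonneg_left hcon2 hb0.le) hb0.le
    linarith
  have hle : hs ((σ γ⁻¹ : SL) : Mat) ≤ X0 := hX0 (mem_image_of_mem _ hin)
  rw [hinv] at hle
  have := (le_max_left X0 (2 * C / ε + 1)).trans_lt hγ1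
  linarith

end Pool.Agent.Helper36.QA
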