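import Pool.Agent.Helper86.QA.St1

/-! QA MODULE EN2 (project QD part A, MP_d112a4_gt): energy seen from a boundary point. -/

set_option autoImplicit false

open MeasureTheory Matrix Set Topology
open scoped ENNReal ComplexConjugate

namespace Pool.Agent.Helper36.QA

open Pool.Agent.Helper86.QA

private theorem gi10 (ξ : ℂ) : gi ξ 1 0 = 1 := rfl

private theorem gi11 (ξ : ℂ) : gi ξ 1 1 = -ξ := rfl

private theorem mb_gi (ξ η : ℂ) : mb (gi ξ) η = -1 / (η - ξ) := by
  have h0 : gi ξ 0 0 = 0 := rfl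
  have h1 : gi ξ 0 1 = -1 := rfl
  unfold mb
  rw [h0, h1, gi10, gi11, zero_mul, zero_add, one_mul, sub_eq_add_neg]

private theorem kk_meas (hCm : Measurable (fun p : Pt × Pt => kk p.1 p.2)) (x : Pt) :
    Measurable (fun y : Pt => kk x y) := by
  have h6 : Measurable (fun y : Pt => ((x, y) : Pt × Pt)) := measurable_prodMk_left
  have h7 := hCm.comp h6
  exact h7

private theorem en_meas (B : Set ℂ) (hCm : Measurable (fun p : Pt × Pt => kk p.1 p.2))
    (hb : Measurable (hv B)) : Measurable (en B) := by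
  have h1 : Measurable fun p : Pt × Pt => hv B p.1 := hb.comp measurable_fst
  have h2 : Measurable fun p : Pt × Pt => hv B p.2 := hb.comp measurable_snd
  have h3 : Measurable fun p : Pt × Pt =>
      ENNReal.ofReal (kk p.1 p.2 * (hv B p.1 - hv B p.2) ^ 2) :=
    (hCm.mul ((h1.sub h2).pow_const 2)).ennreal_ofReal
  exact h3.lintegral_prod_right' (ν := vol)

theorem hEN2 (hACT : StACT) (hCHI : StCHI) (hVOL : StVOL) (hPOI : StPOI) (hCHV : StCHV)
    (hHME : StHME) (hEN1 : StEN1) (hKRN : StKRN) : StEN2 := by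
  intro B ξ hB
  have hl : 0 < Real.log ll := by
    apply Real.log_pos
    unfold ll
    have := Real.sqrt_nonneg 3
    linarith
  have hc : ENNReal.ofReal (2 * VV * Real.log ll) ≠ 0 := by
    have := hKRN.1
    have h2 : 0 < 2 * VV * Real.log ll := by positivity
    exact (ENNReal.ofReal_pos.2 h2).ne'
  by_cases haw : aw B ξ = ∞
  · rw [haw, ENNReal.mul_top hc]
    exact le_top
  obtain ⟨hA1, -, -, hA4, -, -⟩ := hACT
  obtain ⟨-, hC2, -, -, -, hCm⟩ := hCHI
  obtain ⟨-, hV2, -, -⟩ := hVOL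
  obtain ⟨-, hP2, -, -, -⟩ := hPOI
  obtain ⟨-, -, hH3, -, -, -, -, hH8⟩ := hHME
  obtain ⟨g, hg⟩ : ∃ g : SL, g = gi ξ := ⟨_, rfl⟩
  have hg10 : g 1 0 = 1 := by rw [hg, gi10]
  have hg11 : g 1 1 = -ξ := by rw [hg, gi11]
  obtain ⟨B', hB'⟩ : ∃ B' : Set ℂ, B' = {ζ | ζ ≠ 0 ∧ ξ - 1 / ζ ∈ B} := ⟨_, rfl⟩
  have hB'm : MeasurableSet B' := by
    have h1 : Measurable fun ζ : ℂ => ξ - 1 / ζ := by fun_prop
    rw [hB']
    exact (measurableSet_singleton (0 : ℂ)).compl.inter (h1 hB)
  have hiff : ∀ η : ℂ, η ≠ ξ → (η ∈ B ↔ mb g η ∈ B') := by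
    intro η hη
    have h1 : η - ξ ≠ 0 := sub_ne_zero.2 hη
    rw [hg, mb_gi, hB', mem_ofPred_eq]
    have h2 : ξ - 1 / (-1 / (η - ξ)) = η := by
      field_simp
      ring
    rw [h2]
    constructor
    · intro h
      exact ⟨div_ne_zero (by norm_num) h1, h⟩
    · exact fun h => h.2
  have hvB' : volume B' = aw B ξ := by
    have h1 := hCHV.1 g (B'.indicator 1) (measurable_one.indicator hB'm)
    rw [lintegral_indicator_one hB'm] at h1
    rw [← h1]
    unfold aw
    rw [← lintegral_indicator hB]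
    apply lintegral_congr
    intro η
    rw [hg10, hg11, one_mul, ← sub_eq_add_neg, norm_sub_rev η ξ]
    by_cases hη : η = ξ
    · by_cases hm : η ∈ B
      · rw [indicator_of_mem hm, hη, sub_self, norm_zero]
        simp
      · rw [indicator_of_notMem hm, hη, sub_self, norm_zero]
        simp
    · by_cases hm : η ∈ B
      · rw [indicator_of_mem hm, indicator_of_mem ((hiff η hη).1 hm)]
        simp
      · rw [indicator_of_notMem hm, indicator_of_notMem (fun h => hm ((hiff η hη).2 h))]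
        simp
  have h5 : ∀ η, g 1 0 * η + g 1 1 ≠ 0 → (η ∈ B ↔ mb g η ∈ B') := by
    intro η hη
    refine hiff η fun h => hη ?_
    rw [hg10, hg11, one_mul, h, add_neg_cancel]
  have hhv : ∀ x ∈ up, hv B' (ga g x) = hv B x := by
    intro x hx
    exact hH8 B B' g x hB hB'm hx h5
  have hkm := kk_meas hCm
  have hen : ∀ x ∈ up, en B' (ga g x) = en B x := by
    intro x hx
    unfold en
    have hm : Measurable fun y : Pt =>
        ENNReal.ofReal (kk (ga g x) y * (hv B' (ga g x) - hv B' y) ^ 2) :=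
      ((hkm _).mul ((measurable_const.sub (hH3 B' hB'm).1).pow_const 2)).ennreal_ofReal
    rw [← hV2 g _ hm]
    apply lintegral_congr_ae
    filter_upwards [ae_up] with y hy
    rw [(hC2 g x hx y hy).2, hhv x hx, hhv y hy]
  have hem : Measurable (en B') := en_meas B' hCm (hH3 B' hB'm).1
  calc ∫⁻ x, ENNReal.ofReal (pp x ξ ^ 2) * en B x ∂vol
      = ∫⁻ x, ENNReal.ofReal ((ga g x).2 ^ 2) * en B' (ga g x) ∂vol := by
        apply lintegral_congr_ae
        filter_upwards [ae_up] with x hx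
        rw [hen x hx, hg, (hP2 ξ x hx).1]
    _ = ∫⁻ x, ENNReal.ofReal (x.2 ^ 2) * en B' x ∂vol :=
        hV2 g (fun x => ENNReal.ofReal (x.2 ^ 2) * en B' x)
          (((measurable_snd.pow_const 2).ennreal_ofReal).mul hem)
    _ ≤ ENNReal.ofReal (2 * VV * Real.log ll) * volume B' :=
        hEN1 B' hB'm (by rw [hvB']; exact lt_of_le_of_ne le_top haw)
    _ = _ := by rw [hvB']

end Pool.Agent.Helper36.QA
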