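import Pool.Agent.Helper86.QA.St3

/-! QA MODULE FLA (project QD part A, MP_d112a4_gt): absolute convergence, linearity and bound of
the flux. -/

set_option autoImplicit false

open MeasureTheory Matrix Set Topology
open scoped ENNReal ComplexConjugate

namespace Pool.Agent.Helper36.QA

open Pool.Agent.Helper86.QA

private theorem meas_fst {h : Pt → ℝ} (hh : Measurable h) : Measurable fun p : Pt × Pt => h p.1 :=
  hh.comp measurable_fst

private theorem meas_snd {h : Pt → ℝ} (hh : Measurable h) : Measurable fun p : Pt × Pt => h p.2 :=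
  hh.comp measurable_snd

private theorem meas_sec {F : Pt × Pt → ℝ} (hF : Measurable F) (x : Pt) :
    Measurable fun y : Pt => F (x, y) :=
  hF.comp measurable_prodMk_left

private theorem core (hCm : Measurable (fun p : Pt × Pt => kk p.1 p.2)) (hKRN : StKRN)
    (Q : Pt → Pt → ℝ) (hQm : Measurable (fun p : Pt × Pt => Q p.1 p.2)) (C : ℝ) (hC : 0 ≤ C)
    (hQ : ∀ x ∈ up, ∀ y ∈ up, ch x y ≤ 2 → |Q x y| ≤ C) (f : Pt → ℝ) (hf : Measurable f)
    (M : ℝ) (hM : ∀ x, |f x| ≤ M) (x : Pt) (hx : x ∈ up) :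
    Integrable (fun y => kk x y * (f x - f y) * Q x y) vol ∧
    |∫ y, kk x y * (f x - f y) * Q x y ∂vol| ≤
      C * (∫⁻ y, ENNReal.ofReal (kk x y * |f x - f y|) ∂vol).toReal := by
  have hF : Measurable fun p : Pt × Pt => kk p.1 p.2 * (f p.1 - f p.2) * Q p.1 p.2 :=
    (hCm.mul ((meas_fst hf).sub (meas_snd hf))).mul hQm
  have hG : Measurable fun p : Pt × Pt => kk p.1 p.2 * |f p.1 - f p.2| :=
    hCm.mul (((meas_fst hf).sub (meas_snd hf)).abs)
  have hm := meas_sec hF x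
  have hm2 := meas_sec hG x
  simp only at hm hm2
  have hk0 : ∀ y, 0 ≤ kk x y := by
    intro y
    unfold kk
    split_ifs <;> norm_num
  have hfx : ∀ y, |f x - f y| ≤ 2 * M := by
    intro y
    have h1 := hM x
    have h2 := hM y
    have h3 := abs_sub (f x) (f y)
    linarith
  have hbd : ∀ y ∈ up, |kk x y * (f x - f y) * Q x y| ≤ C * (kk x y * |f x - f y|) := by
    intro y hy
    rw [abs_mul, abs_mul, abs_of_nonneg (hk0 y)]
    by_cases h : ch x y ≤ 2
    · have h1 := hQ x hx y hy h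
      have h2 : 0 ≤ kk x y * |f x - f y| := mul_nonneg (hk0 y) (abs_nonneg _)
      calc kk x y * |f x - f y| * |Q x y| ≤ kk x y * |f x - f y| * C :=
            mul_le_mul_of_nonneg_left h1 h2
        _ = C * (kk x y * |f x - f y|) := by ring
    · have h0 : kk x y = 0 := by
        unfold kk
        rw [if_neg h]
      rw [h0]
      simp
  have hki := (hKRN.2.2 x hx).1
  have hi2 : Integrable (fun y => kk x y * |f x - f y|) vol := by
    refine (hki.mul_const (2 * M)).mono' hm2.aestronglyMeasurable (Filter.Eventually.of_forall ?_)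
    intro y
    rw [Real.norm_eq_abs, abs_of_nonneg (mul_nonneg (hk0 y) (abs_nonneg _))]
    exact mul_le_mul_of_nonneg_left (hfx y) (hk0 y)
  have hi1 : Integrable (fun y => kk x y * (f x - f y) * Q x y) vol := by
    refine (hi2.const_mul C).mono' hm.aestronglyMeasurable ?_
    filter_upwards [ae_up] with y hy
    exact hbd y hy
  refine ⟨hi1, ?_⟩
  have h1 : |∫ y, kk x y * (f x - f y) * Q x y ∂vol| ≤
      ∫ y, |kk x y * (f x - f y) * Q x y| ∂vol := abs_integral_le_integral_abs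
  have h2 : ∫ y, |kk x y * (f x - f y) * Q x y| ∂vol ≤ ∫ y, C * (kk x y * |f x - f y|) ∂vol := by
    apply integral_mono_ae hi1.abs (hi2.const_mul C)
    filter_upwards [ae_up] with y hy
    exact hbd y hy
  rw [integral_const_mul, integral_eq_lintegral_of_nonneg_ae
    (Filter.Eventually.of_forall fun y => mul_nonneg (hk0 y) (abs_nonneg _))
    hm2.aestronglyMeasurable] at h2
  exact h1.trans h2

private theorem flux (hCm : Measurable (fun p : Pt × Pt => kk p.1 p.2)) (hKRN : StKRN)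
    (Q : Pt → Pt → ℝ) (hQm : Measurable (fun p : Pt × Pt => Q p.1 p.2)) (C : ℝ) (hC : 0 ≤ C)
    (hQ : ∀ x ∈ up, ∀ y ∈ up, ch x y ≤ 2 → |Q x y| ≤ C) (f : Pt → ℝ) (hf : Measurable f)
    (hM : ∃ M : ℝ, ∀ x, |f x| ≤ M) (D : Set Pt) (hD : MeasurableSet D)
    (hT : TV D f ≠ ∞) (G : Pt → ℝ) (hG : ∀ x, G x = ∫ y, kk x y * (f x - f y) * Q x y ∂vol)
    (hGm : Measurable G) :
    IntegrableOn G D vol ∧ |∫ x in D, G x ∂vol| ≤ C * (TV D f).toReal := by
  obtain ⟨M, hM⟩ := hM
  have hup : ∀ᵐ x ∂(vol.restrict D), x ∈ up := ae_restrict_of_ae ae_up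
  have key : ∀ᵐ x ∂(vol.restrict D), ENNReal.ofReal ‖G x‖ ≤
      ENNReal.ofReal C * ∫⁻ y, ENNReal.ofReal (kk x y * |f x - f y|) ∂vol := by
    filter_upwards [hup] with x hx
    have h1 := (core hCm hKRN Q hQm C hC hQ f hf M hM x hx).2
    rw [← hG x, ← Real.norm_eq_abs] at h1
    calc ENNReal.ofReal ‖G x‖ ≤ ENNReal.ofReal
          (C * (∫⁻ y, ENNReal.ofReal (kk x y * |f x - f y|) ∂vol).toReal) :=
          ENNReal.ofReal_le_ofReal h1
      _ = ENNReal.ofReal C *
          ENNReal.ofReal (∫⁻ y, ENNReal.ofReal (kk x y * |f x - f y|) ∂vol).toReal :=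
          ENNReal.ofReal_mul hC
      _ ≤ _ := by gcongr; exact ENNReal.ofReal_toReal_le
  have hle : ∫⁻ x in D, ENNReal.ofReal ‖G x‖ ∂vol ≤ ENNReal.ofReal C * TV D f := by
    refine (lintegral_mono_ae key).trans ?_
    rw [lintegral_const_mul' _ _ ENNReal.ofReal_ne_top]
    rfl
  have hfin : ENNReal.ofReal C * TV D f ≠ ∞ := ENNReal.mul_ne_top ENNReal.ofReal_ne_top hT
  refine ⟨⟨hGm.aestronglyMeasurable, ?_⟩, ?_⟩
  · rw [hasFiniteIntegral_iff_norm]
    exact hle.trans_lt (lt_top_iff_ne_top.2 hfin)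
  · have h1 := norm_integral_le_lintegral_norm (μ := vol.restrict D) G
    rw [Real.norm_eq_abs] at h1
    have h2 := ENNReal.toReal_mono hfin hle
    rw [ENNReal.toReal_mul, ENNReal.toReal_ofReal hC] at h2
    exact h1.trans h2

theorem hFLA (hCHI : StCHI) (hKRN : StKRN) (hQQB : StQQB) : StFLA := by
  intro Γ _ ρ σ hσ Pi hPi D hD f hf hfb
  obtain ⟨-, -, -, -, -, hCm⟩ := hCHI
  obtain ⟨hQm, hQb, -, -⟩ := hQQB Γ ρ σ hσ Pi hPi
  have hC : 0 ≤ CQ := by
    unfold CQ
    positivity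
  have hGm : ∀ f : Pt → ℝ, Measurable f → Measurable (Gf Pi f) := by
    intro f hf
    have hF : Measurable fun p : Pt × Pt => kk p.1 p.2 * (f p.1 - f p.2) * QQ Pi p.1 p.2 :=
      (hCm.mul ((meas_fst hf).sub (meas_snd hf))).mul hQm
    exact (hF.stronglyMeasurable.integral_prod_right' (ν := vol)).measurable
  have hall : ∀ f : Pt → ℝ, Measurable f → (∃ M : ℝ, ∀ x, |f x| ≤ M) → TV D f ≠ ∞ →
      IntegrableOn (Gf Pi f) D vol ∧ |Fl D Pi f| ≤ CQ * (TV D f).toReal := by
    intro f hf hb hT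
    exact flux hCm hKRN (QQ Pi) hQm CQ hC hQb f hf hb D hD hT (Gf Pi f) (fun x => rfl) (hGm f hf)
  obtain ⟨M, hM⟩ := hfb
  refine ⟨hGm f hf, ?_, ?_, ?_⟩
  · intro x hx
    exact core hCm hKRN (QQ Pi) hQm CQ hC hQb f hf M hM x hx
  · exact hall f hf ⟨M, hM⟩
  · rintro f' hf' ⟨M', hM'⟩ hT hT'
    have h1 := (hall f hf ⟨M, hM⟩ hT).1
    have h2 := (hall f' hf' ⟨M', hM'⟩ hT').1
    unfold Fl
    rw [← integral_sub h1 h2]
    apply integral_congr_ae
    filter_upwards [ae_restrict_of_ae ae_up] with x hx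
    have h3 := (core hCm hKRN (QQ Pi) hQm CQ hC hQb f hf M hM x hx).1
    have h4 := (core hCm hKRN (QQ Pi) hQm CQ hC hQb f' hf' M' hM' x hx).1
    show ∫ y, kk x y * ((f x - f' x) - (f y - f' y)) * QQ Pi x y ∂vol =
      (∫ y, kk x y * (f x - f y) * QQ Pi x y ∂vol) - ∫ y, kk x y * (f' x - f' y) * QQ Pi x y ∂vol
    rw [← integral_sub h3 h4]
    congr 1
    funext y
    ring

end Pool.Agent.Helper36.QA
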