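import Pool.Agent.Helper86.QA.St3

/-! QA MODULE K3Z (project QD part A, MP_d112a4_gt): all integrals of the four point kernel over one
variable vanish. -/

set_option autoImplicit false

open MeasureTheory Matrix Set Topology
open scoped ENNReal ComplexConjugate

namespace Pool.Agent.Helper36.QA

open Pool.Agent.Helper86.QA

private theorem tr2 (P Q R : Mat) : (P * R * Q).trace =
    (Q * P) 0 0 * R 0 0 + (Q * P) 0 1 * R 1 0 + (Q * P) 1 0 * R 0 1 + (Q * P) 1 1 * R 1 1 := by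
  rw [Matrix.trace_mul_cycle P R Q, Matrix.trace_fin_two, Matrix.mul_apply, Matrix.mul_apply,
    Fin.sum_univ_two, Fin.sum_univ_two]
  ring

private theorem lin (P Q N : Mat) (M : Pt → Mat) (k : Pt → ℝ)
    (hi : ∀ i j, Integrable (fun y => (k y : ℂ) * M y i j) vol)
    (he : ∀ i j, ∫ y, (k y : ℂ) * M y i j ∂vol = (cM : ℂ) * N i j) :
    ∫ y, ((P * M y * Q).trace).im * k y ∂vol = cM * ((P * N * Q).trace).im := by
  have h00 := (hi 0 0).const_mul ((Q * P) 0 0)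
  have h10 := (hi 1 0).const_mul ((Q * P) 0 1)
  have h01 := (hi 0 1).const_mul ((Q * P) 1 0)
  have h11 := (hi 1 1).const_mul ((Q * P) 1 1)
  have hF : ∀ y, (k y : ℂ) * (P * M y * Q).trace =
      (Q * P) 0 0 * ((k y : ℂ) * M y 0 0) + (Q * P) 0 1 * ((k y : ℂ) * M y 1 0) +
      (Q * P) 1 0 * ((k y : ℂ) * M y 0 1) + (Q * P) 1 1 * ((k y : ℂ) * M y 1 1) := by
    intro y
    rw [tr2]
    ring
  have s2 : Integrable (fun y => (Q * P) 0 0 * ((k y : ℂ) * M y 0 0) +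
      (Q * P) 0 1 * ((k y : ℂ) * M y 1 0)) vol := h00.add h10
  have s3 : Integrable (fun y => (Q * P) 0 0 * ((k y : ℂ) * M y 0 0) +
      (Q * P) 0 1 * ((k y : ℂ) * M y 1 0) + (Q * P) 1 0 * ((k y : ℂ) * M y 0 1)) vol := s2.add h01
  have hint : Integrable (fun y => (k y : ℂ) * (P * M y * Q).trace) vol := by
    simp_rw [hF]
    exact s3.add h11
  have hval : ∫ y, (k y : ℂ) * (P * M y * Q).trace ∂vol = (cM : ℂ) * (P * N * Q).trace := by
    simp_rw [hF]
    rw [integral_add s3 h11, integral_add s2 h01, integral_add h00 h10, integral_const_mul, integral_const_mul, integral_const_mul,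
      integral_const_mul, he, he, he, he, tr2 P Q N]
    ring
  have h1 : ∀ y, ((P * M y * Q).trace).im * k y = Complex.imCLM ((k y : ℂ) * (P * M y * Q).trace) := by
    intro y
    rw [Complex.imCLM_apply, Complex.im_ofReal_mul]
    ring
  simp_rw [h1]
  rw [Complex.imCLM.integral_comp_comm hint, hval, Complex.imCLM_apply, Complex.im_ofReal_mul]

private theorem mp {φ : Pt → Pt} (hφ : Measurable φ)
    (h : ∀ f : Pt → ℝ≥0∞, Measurable f → ∫⁻ x, f (φ x) ∂vol = ∫⁻ x, f x ∂vol)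
    (f : Pt → ℝ) (hf : Measurable f) : ∫ x, f (φ x) ∂vol = ∫ x, f x ∂vol := by
  have h1 : Measure.map φ vol = vol := by
    ext s hs
    rw [Measure.map_apply hφ hs, ← lintegral_indicator_one hs,
      ← h (s.indicator 1) (measurable_one.indicator hs),
      ← lintegral_indicator_one (hφ hs)]
    rfl
  have h2 := integral_map (μ := vol) hφ.aemeasurable
    (by rw [h1]; exact hf.aestronglyMeasurable : AEStronglyMeasurable f (Measure.map φ vol))
  rw [h1] at h2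
  exact h2.symm

theorem hK3Z (hACT : StACT) (hCHI : StCHI) (hVOL : StVOL) (hKRN : StKRN) (hDLF : StDLF)
    (hMTX : StMTX) (hREA : StREA) : StK3Z := by
  intro x0 hx0 x1 hx1 x2 hx2 x3 hx3
  obtain ⟨hA1, -, -, hA4, -, -⟩ := hACT
  obtain ⟨-, hV2, hV3, -⟩ := hVOL
  obtain ⟨-, hD1, hD2, -, hD4, -, hD6⟩ := hDLF
  have hM := fun i j => hMTX.2 x1 hx1 i j
  refine ⟨?_, ?_, ?_, ?_⟩
  · have h1 := lin 1 ((Xm x1)⁻¹ * Xm x2 * (Xm x3)⁻¹) (Xm x1) Xm (kk x1)
      (fun i j => (hM i j).1) (fun i j => (hM i j).2.1)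
    have h2 : ∀ R : Mat, 1 * R * ((Xm x1)⁻¹ * Xm x2 * (Xm x3)⁻¹) =
        R * (Xm x1)⁻¹ * Xm x2 * (Xm x3)⁻¹ := by
      intro R
      rw [one_mul, ← mul_assoc, ← mul_assoc]
    have h3 : ∀ y, KK y x1 x2 x3 = (((1 * Xm y * ((Xm x1)⁻¹ * Xm x2 * (Xm x3)⁻¹)).trace).im *
        kk x1 y) * (kk x1 x2 * kk x1 x3) := by
      intro y
      rw [h2]
      unfold KK Dl
      ring
    have h4 : ((1 * Xm x1 * ((Xm x1)⁻¹ * Xm x2 * (Xm x3)⁻¹)).trace).im = 0 := by
      rw [h2]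
      exact (hD4 x0 hx0 x1 hx1 x2 hx2 x3 hx3).1
    simp_rw [h3]
    rw [integral_mul_const, h1, h4, mul_zero, zero_mul]
  · obtain ⟨g, hg0, hg2, hg3⟩ := hREA x0 hx0 x2 hx2 x3 hx3
    have hu0 := (hA1 g x0 hx0).2.1
    have hu2 := (hA1 g x2 hx2).2.1
    have hu3 := (hA1 g x3 hx3).2.1
    have hf : Measurable fun y : Pt => KK (ga g x0) y (ga g x2) (ga g x3) := by
      have h5 : Measurable fun y : Pt => ((ga g x0, y, ga g x2, ga g x3) : Pt × Pt × Pt × Pt) :=
        measurable_const.prodMk (measurable_id.prodMk (measurable_const.prodMk measurable_const))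
      have h6 := hD6.comp h5
      exact h6
    have hcj : Measurable cj := by
      unfold cj
      exact (Complex.continuous_conj.measurable.comp measurable_fst).prodMk measurable_snd
    have e1 : ∫ y, KK x0 y x2 x3 ∂vol = ∫ y, KK (ga g x0) (ga g y) (ga g x2) (ga g x3) ∂vol := by
      apply integral_congr_ae
      filter_upwards [ae_up] with y hy
      exact (hD1 g x0 hx0 y hy x2 hx2 x3 hx3).2.symm
    have e2 := mp (hA4 g).1 (hV2 g) _ hf
    have e3 := mp hcj hV3 _ hf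
    have e4 : ∫ y, KK (ga g x0) (cj y) (ga g x2) (ga g x3) ∂vol =
        ∫ y, - KK (ga g x0) y (ga g x2) (ga g x3) ∂vol := by
      apply integral_congr_ae
      filter_upwards [ae_up] with y hy
      have e5 := (hD2 _ hu0 y hy _ hu2 _ hu3).1
      have e6 := (hD2 y hy _ hu0 _ hu2 _ hu3).2
      have e7 := (hD2 y hy _ hu2 _ hu2 _ hu3).2
      have e8 := (hD2 y hy _ hu3 _ hu2 _ hu3).2
      rw [hg0, hg2, hg3] at e5
      rw [hg0] at e6
      rw [hg2] at e7
      rw [hg3] at e8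
      unfold KK
      rw [e5, e6, e7, e8]
      ring
    rw [integral_neg] at e4
    rw [e1, e2]
    linarith
  · have h1 := lin (Xm x0 * (Xm x1)⁻¹) ((Xm x3)⁻¹) (Xm x1) Xm (kk x1)
      (fun i j => (hM i j).1) (fun i j => (hM i j).2.1)
    have h3 : ∀ y, KK x0 x1 y x3 = (((Xm x0 * (Xm x1)⁻¹ * Xm y * (Xm x3)⁻¹).trace).im *
        kk x1 y) * (kk x1 x0 * kk x1 x3) := by
      intro y
      unfold KK Dl
      ring
    have h4 : ((Xm x0 * (Xm x1)⁻¹ * Xm x1 * (Xm x3)⁻¹).trace).im = 0 :=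
      (hD4 x0 hx0 x1 hx1 x2 hx2 x3 hx3).2.1
    simp_rw [h3]
    rw [integral_mul_const, h1, h4, mul_zero, zero_mul]
  · have h1 := lin (Xm x0 * (Xm x1)⁻¹ * Xm x2) 1 ((Xm x1)⁻¹) (fun y => (Xm y)⁻¹) (kk x1)
      (fun i j => (hM i j).2.2.1) (fun i j => (hM i j).2.2.2)
    have h3 : ∀ y, KK x0 x1 x2 y = (((Xm x0 * (Xm x1)⁻¹ * Xm x2 * (Xm y)⁻¹ * 1).trace).im *
        kk x1 y) * (kk x1 x0 * kk x1 x2) := by
      intro y
      rw [mul_one]
      unfold KK Dl
      ring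
    have h4 : ((Xm x0 * (Xm x1)⁻¹ * Xm x2 * (Xm x1)⁻¹ * 1).trace).im = 0 := by
      rw [mul_one]
      exact (hD4 x0 hx0 x1 hx1 x2 hx2 x3 hx3).2.2
    simp_rw [h3]
    rw [integral_mul_const, h1, h4, mul_zero, zero_mul]

end Pool.Agent.Helper36.QA
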